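import Pool.Agent.W528.HF.Stm
import Pool.Agent.W125.HC.PC

/-!
# HF-PN: the point count for composite exponents
-/

set_option autoImplicit false

namespace Pool.Agent.W933.HF.PN

open Finset Pool.Agent.W528.HA Pool.Agent.W528.HC Pool.Agent.W125.HC.PC

section

variable {L : Type} [Field L] [Fintype L]

lemma surface_eq' [DecidableEq L] {p r : ℕ} (F : L → L → L) {E : Type} [Field E] :
    ((Set.ncard {v : L × L × L | v.2.2 ^ p = F v.1 (v.2.1 ^ r)} : ℕ) : E) =
      ∑ x : L, ∑ u : L, ((Set.ncard {y : L | y ^ p = F x (u ^ r)} : ℕ) : E) := by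
  classical
  have h : {v : L × L × L | v.2.2 ^ p = F v.1 (v.2.1 ^ r)} =
      ((univ.filter (fun v : L × L × L =>
        v.2.2 ^ p = F v.1 (v.2.1 ^ r)) : Finset (L × L × L)) : Set (L × L × L)) := by
    ext y; simp
  rw [h, Set.ncard_coe_finset, card_filter, Fintype.sum_prod_type]
  push_cast
  refine sum_congr rfl fun x _ => ?_
  rw [Fintype.sum_prod_type]
  refine sum_congr rfl fun u _ => ?_
  rw [ncard_eq]

end

theorem general (hPR : PR) (hMU : MU) (L : Type) [Field L] [Fintype L] (p r : ℕ) (z : L)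
    (hp : 2 ≤ p) (hr : 0 < r) (hz : IsPrimitiveRoot z (p * r)) (E : Type) [Field E]
    [CharZero E] (μ : E) (hμ : IsPrimitiveRoot μ (p * r)) (m : ℕ) (g : Fin m → L → L)
    (a : Fin m → ℕ) (ha : ∀ i, 0 < a i ∧ (a i).Coprime p) :
    (∑ j ∈ Ico 1 p, ∑ s ∈ range r, ∑ x : L, ∑ t : L, kv (p * r) z μ
      (((∏ i, (x - g i t) ^ (r * (j * a i % p))) * t ^ (p * s))
        ^ ((Fintype.card L - 1) / (p * r)))) =
      ((Set.ncard {v : L × L × L | v.2.2 ^ p = ∏ i, (v.1 - g i (v.2.1 ^ r)) ^ a i} : ℕ) : E) -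
        (Fintype.card L : E) ^ 2 := by
  classical
  have hN : 0 < p * r := Nat.mul_pos (by omega : 0 < p) hr
  have hN2 : 2 ≤ p * r := by
    calc 2 ≤ p := hp
      _ = p * 1 := (mul_one p).symm
      _ ≤ p * r := Nat.mul_le_mul_left p hr
  have hmu := hMU L (p * r) z hN2 hz E μ hμ.pow_eq_one
  obtain ⟨F, hF⟩ : ∃ F : L → L → L, F = fun x t => ∏ i, (x - g i t) ^ a i := ⟨_, rfl⟩
  have h1 : ∀ j ∈ Ico 1 p, ∀ s : ℕ, ∀ x t : L, kv (p * r) z μ
      (((∏ i, (x - g i t) ^ (r * (j * a i % p))) * t ^ (p * s))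
        ^ ((Fintype.card L - 1) / (p * r))) =
      kv (p * r) z μ ((F x t ^ (r * j)) ^ ((Fintype.card L - 1) / (p * r))) *
        kv (p * r) z μ ((t ^ (p * s)) ^ ((Fintype.card L - 1) / (p * r))) := by
    intro j hj s x t
    rw [mem_Ico] at hj
    rw [hmu]
    congr 2
    rw [hF]
    simp only
    rw [← prod_pow, ← prod_pow, ← prod_pow]
    refine prod_congr rfl fun i _ => ?_
    have hnd : ¬ p ∣ j * a i := by
      intro hd
      have h := (ha i).2.symm.dvd_of_dvd_mul_right hd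
      have := Nat.le_of_dvd (by omega) h
      omega
    rw [pow_mod (by omega : 0 < p) hr hz hnd, ← pow_mul (x - g i t) (a i)]
    congr 2
    ring
  have h2 : ∀ v : L, ∑ j ∈ Ico 1 p,
      kv (p * r) z μ ((v ^ (r * j)) ^ ((Fintype.card L - 1) / (p * r))) =
      ((Set.ncard {y : L | y ^ p = v} : ℕ) : E) - 1 := by
    intro v
    have := hPR L (p * r) p r z rfl hz (by omega : 0 < p) hr E μ hμ v
    rw [this]; ring
  have h3 : ∀ v : L, ∑ s ∈ range r,
      kv (p * r) z μ ((v ^ (p * s)) ^ ((Fintype.card L - 1) / (p * r))) =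
      ((Set.ncard {y : L | y ^ r = v} : ℕ) : E) := by
    intro v
    have := hPR L (p * r) r p z (mul_comm p r) hz hr (by omega : 0 < p) E μ hμ v
    rw [this, range_eq_Ico, sum_eq_sum_Ico_succ_bot hr]
    congr 1
    rw [mul_zero, pow_zero, one_pow, kv_one hN hz]
  obtain ⟨A, hA⟩ : ∃ A : L → L → ℕ → E, A = fun x t j =>
      kv (p * r) z μ ((F x t ^ (r * j)) ^ ((Fintype.card L - 1) / (p * r))) := ⟨_, rfl⟩
  obtain ⟨B, hB⟩ : ∃ B : L → ℕ → E, B = fun t s =>
      kv (p * r) z μ ((t ^ (p * s)) ^ ((Fintype.card L - 1) / (p * r))) := ⟨_, rfl⟩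
  have h2' : ∀ x t : L, (∑ j ∈ Ico 1 p, A x t j) =
      ((Set.ncard {y : L | y ^ p = F x t} : ℕ) : E) - 1 := by
    intro x t
    rw [hA]
    exact h2 (F x t)
  have h3' : ∀ t : L, (∑ s ∈ range r, B t s) =
      ((Set.ncard {y : L | y ^ r = t} : ℕ) : E) := by
    intro t
    rw [hB]
    exact h3 t
  have e1 : (∑ j ∈ Ico 1 p, ∑ s ∈ range r, ∑ x : L, ∑ t : L, kv (p * r) z μ
      (((∏ i, (x - g i t) ^ (r * (j * a i % p))) * t ^ (p * s))
        ^ ((Fintype.card L - 1) / (p * r)))) =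
      ∑ j ∈ Ico 1 p, ∑ s ∈ range r, ∑ x : L, ∑ t : L, A x t j * B t s := by
    rw [hA, hB]
    exact sum_congr rfl fun j hj => sum_congr rfl fun s _ => sum_congr rfl fun x _ =>
          sum_congr rfl fun t _ => h1 j hj s x t
  have e3 : (∑ x : L, ∑ t : L, (∑ j ∈ Ico 1 p, A x t j) * (∑ s ∈ range r, B t s)) =
      ∑ x : L, ∑ t : L, (((Set.ncard {y : L | y ^ p = F x t} : ℕ) : E) - 1) *
        ((Set.ncard {u : L | u ^ r = t} : ℕ) : E) :=
    sum_congr rfl fun x _ => sum_congr rfl fun t _ => by rw [h2', h3']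
  have e4 : (∑ x : L, ∑ t : L, (((Set.ncard {y : L | y ^ p = F x t} : ℕ) : E) - 1) *
        ((Set.ncard {u : L | u ^ r = t} : ℕ) : E)) =
      ∑ x : L, ∑ u : L, (((Set.ncard {y : L | y ^ p = F x (u ^ r)} : ℕ) : E) - 1) := by
    refine sum_congr rfl fun x _ => ?_
    have e5 : ∀ t : L, (((Set.ncard {y : L | y ^ p = F x t} : ℕ) : E) - 1) *
        ((Set.ncard {u : L | u ^ r = t} : ℕ) : E) =
        ∑ u : L, (((Set.ncard {y : L | y ^ p = F x t} : ℕ) : E) - 1) *
          (if u ^ r = t then 1 else 0) := by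
      intro t
      rw [ncard_eq (fun u : L => u ^ r = t), mul_sum]
    rw [sum_congr rfl fun t _ => e5 t, sum_comm]
    refine sum_congr rfl fun u _ => ?_
    rw [sum_eq_single_of_mem (u ^ r) (mem_univ _)]
    · rw [if_pos rfl, mul_one]
    · intro t _ ht
      rw [if_neg (fun h => ht h.symm), mul_zero]
  refine e1.trans ((swap4 (Ico 1 p) (range r) A B).trans (e3.trans (e4.trans ?_)))
  have e6 := surface_eq' (L := L) (p := p) (r := r) F (E := E)
  simp only [hF] at e6
  rw [e6]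
  simp only [sum_sub_distrib, sum_const, card_univ, nsmul_eq_mul, mul_one, hF]
  ring

theorem main : Pool.Agent.W528.HC.PR → Pool.Agent.W528.HC.MU → Pool.Agent.W528.HF.PN := by
  intro hPR hMU L _ _ n r z hn hr _ hz E _ _ μ hμ m f a ha
  rcases Nat.lt_or_ge 1 n with h1 | h1
  · exact general hPR hMU L n r z h1 hr hz E μ hμ m (fun i t => (f i).eval t) a ha
  · have h2 : n = 1 := by omega
    subst h2
    classical
    rw [Finset.Ico_self, Finset.sum_empty]
    have e6 := surface_eq' (L := L) (p := 1) (r := r)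
      (fun x t => ∏ i, (x - (f i).eval t) ^ a i) (E := E)
    have e7 : (Pool.Agent.W528.HD.polyPoints L 1 r f a : E) =
        ((Set.ncard {v : L × L × L | v.2.2 ^ 1 =
          ∏ i, (v.1 - (f i).eval (v.2.1 ^ r)) ^ a i} : ℕ) : E) := rfl
    have e8 : ∀ c : L, Set.ncard {y : L | y ^ 1 = c} = 1 := by
      intro c
      have : {y : L | y ^ 1 = c} = {c} := by
        ext y
        simp
      rw [this, Set.ncard_singleton]
    rw [e7, e6]
    simp only [e8, Nat.cast_one, sum_const, card_univ, nsmul_eq_mul, mul_one]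
    ring

end Pool.Agent.W933.HF.PN
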